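import Pool.Agent.Lib.MP_7b3c84_co.Eight.Main

namespace Pool.Agent.Results.MP_7b3c84_co.Eight

open Pool.Agent.Lib.MP_7b3c84_co

theorem result : ∃ T : Finset (Finset (Fin 8 → ℝ)), IsTriangulation 8 T ∧ T.card ≤ 8992 :=
  Pool.Agent.Lib.MP_7b3c84_co.Eight.eight

end Pool.Agent.Results.MP_7b3c84_co.Eight
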