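import Pool.Agent.Lib.MP_7b3c84_co.Global

namespace Pool.Agent.Results.MP_7b3c84_co.LowerBound

open Pool.Agent.Lib.MP_7b3c84_co

theorem result (c : ℝ) (h0 : 0 ≤ c) (h1 : c < Real.pi / Real.exp 1) :
    ∀ᶠ n : ℕ in Filter.atTop, ∀ T : Finset (Finset (Fin n → ℝ)), IsTriangulation n T →
      (c * Real.sqrt n) ^ n ≤ T.card :=
  lower h0 h1

end Pool.Agent.Results.MP_7b3c84_co.LowerBound
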