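import Pool.Agent.Lib.MP_7b3c84_co.Final

namespace Pool.Agent.Results.MP_7b3c84_co.Order

open Pool.Agent.Lib.MP_7b3c84_co

theorem result :
    Asymptotics.IsBigO Filter.atTop
      (fun n : ℕ => Real.log (minSize n) - (n : ℝ) / 2 * Real.log n) (fun n : ℕ => (n : ℝ)) :=
  log_order

end Pool.Agent.Results.MP_7b3c84_co.Order
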