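import Pool.Agent.Lib.MP_7b3c84_co.Tri

namespace Pool.Agent.Results.MP_7b3c84_co.UpperBound

open Pool.Agent.Lib.MP_7b3c84_co

theorem result (n : ℕ) :
    ∃ T : Finset (Finset (Fin n → ℝ)), IsTriangulation n T ∧
      (T.card : ℝ) ≤ Real.pi ^ n * Real.sqrt ((n.factorial : ℝ) / (n + 1)) :=
  upper n

end Pool.Agent.Results.MP_7b3c84_co.UpperBound
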